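import Pool.Agent.H75.NA.Fin

/-!
# Exceptional eigenfunctions on `Γ(N) \ ℍ`: mass, area and number of nodal domains, with arithmetic exponents

Let `1/2 < s < 1` and `η > 0`. There are constants `c, C > 0`, which depend on `s` and `η` only, such that the
following holds for all `N ≥ 3` and all bounded real `Γ(N)`-invariant `C²` functions `f` on the upper half plane with
`-y² (f_xx + f_yy) = s (1 - s) f` (a counterexample to Selberg's conjecture is a cusp form with such an eigenvalue, hence
such a function). Let `D_1, …, D_k` be nodal domains which are pairwise not `Γ(N)`-equivalent, `z_i ∈ D_i`, and let `A` be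
a measurable set which meets the `Γ(N)`-orbit of every point of every `D_i`.

* `∫_A f² ≥ c N^(3 (2s - 1) - η) ∑ f(z_i)²`: an exceptional eigenfunction is very spread out, `|f|² ≤ C N^(η - 6ν) ‖f‖²`
  with `s = 1/2 + ν`, in the whole of `Γ(N) \ ℍ`, and even in each nodal domain separately.
* The hyperbolic area of `A` is at least `c k N^(3s/(2-s) - η)`, and `∫_A |f| ≥ c N^(3s/(2-s) - η) ∑ |f(z_i)|`.
* `f` has at most `C N^(6(1-s)/(2-s) + η)` nodal domains modulo `Γ(N)`.

The library has `N^(4s-2)` instead of `N^(3(2s-1))` (`SupNorm`), `N^(2s)` instead of `N^(3s/(2-s))` and `N^(3-2s)` instead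
of `N^(6(1-s)/(2-s))` (`NodalDomains`, `LargeNodalDomains`), from the injectivity radius `2 log N` of `Γ(N) \ ℍ` away from
the cusps. Here balls of radius up to `3 log N` are used (their area is that of the surface), which are not injective. The
new ingredient is the following count, uniform in the point: for each `z ∈ ℍ`, the number of the `γ ∈ Γ(N)` with
`tr γ ≠ 2` and `2 cosh (dist (z, γ z)) ≤ Y²` is at most `C_θ Y^(2+θ) / N³`, also in the cusps (`count` in `Pool/Agent/H75/NA/Cnt.lean`): the trace is `≡ 2` modulo `N²`, for each trace there are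
`O(Y / N)` possibilities for the upper left entry, and then the other two entries are divisors of a nonzero number. The
parabolic elements, which are much more frequent high in the cusps, do not matter, because no nodal domain meets its image
under a parabolic element (library, `LargeNodalDomains`). The unfolding of the mean value inequality for the positive part
of `f` is done with the number `κ(z)` of the points of the orbit of `z` in the ball as a weight:
`∫_P H ≤ ∫_A H + sup H ∫_P (κ - 1)` and `(∫_P H)² ≤ ∫_A H² ∫_P κ` (`Pool/Agent/H75/NA/Unf.lean`).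
-/

set_option autoImplicit false
set_option maxSynthPendingDepth 3

open MeasureTheory Set
open scoped ENNReal UpperHalfPlane MatrixGroups

namespace Pool.Agent.Results.MP_a812b2_nt.ArithmeticNodalBounds

open Pool.Agent.Q196.SE Pool.Agent.Q196.ND CongruenceSubgroup

/-- The nodal domain of `f` (restricted to `ℍ`) through `z₀`: the connected component of `{z ∈ ℍ | f z ≠ 0}` which
contains `z₀`. -/
def nodalDomain (f : ℂ → ℝ) (z₀ : ℍ) : Set ℍ := connectedComponentIn {z : ℍ | f z ≠ 0} z₀

/-- Bounded real `Γ(N)`-invariant eigenfunctions with the eigenvalue `s (1 - s)`. -/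
structure IsEigenfunction (N : ℕ) (s : ℝ) (f : ℂ → ℝ) : Prop where
  /-- `f` is of class `C²` on the upper half plane -/
  smooth : ContDiffOn ℝ 2 f {w : ℂ | 0 < w.im}
  /-- `f` is invariant under the principal congruence subgroup of level `N` -/
  invariant : ∀ γ ∈ Gamma N, ∀ z : ℍ, f ((γ • z : ℍ) : ℂ) = f (z : ℂ)
  /-- `-y² (f_xx + f_yy) = s (1 - s) f` -/
  equation : ∀ z : ℍ, -(z.im ^ 2) *
    (deriv (fun r : ℝ => deriv (fun t : ℝ => f ((t : ℂ) + (z.im : ℂ) * Complex.I)) r) z.re
      + deriv (fun r : ℝ => deriv (fun t : ℝ => f ((z.re : ℂ) + (t : ℂ) * Complex.I)) r) z.im)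
    = s * (1 - s) * f (z : ℂ)
  /-- `f` is bounded -/
  bounded : ∃ M : ℝ, ∀ z : ℍ, |f (z : ℂ)| ≤ M

lemma IsEigenfunction.eig {N : ℕ} {s : ℝ} {f : ℂ → ℝ} (h : IsEigenfunction N s f) : Eig N s f := by
  have hf' : ∀ z ∈ UH, ContDiffAt ℝ 2 f z := fun z hz =>
    h.smooth.contDiffAt (isOpen_UH.mem_nhds hz)
  obtain ⟨M, hM⟩ := h.bounded
  refine ⟨hf', fun z hz => ?_, ⟨M, fun z hz => ?_⟩, h.invariant⟩
  · lift z to ℍ using hz
    have h1 := h.equation z
    rw [dxx hf' z, dyy hf' z] at h1
    have e : lap f z = fderiv ℝ (fun w => fderiv ℝ f w 1) z 1 +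
      fderiv ℝ (fun w => fderiv ℝ f w Complex.I) z Complex.I := rfl
    rw [← e] at h1
    have e2 : (z : ℂ).im = z.im := rfl
    rw [e2]
    linarith
  · lift z to ℍ using hz
    exact hM z

/-- **Mass, area and number of the nodal domains of exceptional eigenfunctions.** -/
theorem result (s η : ℝ) (hs : 1 / 2 < s) (hs1 : s < 1) (hη : 0 < η) : ∃ c C : ℝ, 0 < c ∧ 0 < C ∧
    ∀ (N : ℕ) (f : ℂ → ℝ), 3 ≤ N → IsEigenfunction N s f →
      -- `z 0, …, z (k - 1)` lie in nodal domains which are pairwise not `Γ(N)`-equivalent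
      ∀ (k : ℕ) (z : Fin k → ℍ), (∀ i, f (z i) ≠ 0) →
        (∀ i j, i ≠ j → ∀ γ ∈ Gamma N, γ • z i ∉ nodalDomain f (z j)) →
        -- mass, integral and area
        (∀ A : Set ℍ, MeasurableSet A →
          (∀ i, ∀ w ∈ nodalDomain f (z i), ∃ γ ∈ Gamma N, γ • w ∈ A) →
          ENNReal.ofReal (c * (N : ℝ) ^ (3 * (2 * s - 1) - η) * ∑ i, f (z i) ^ 2) ≤
            ∫⁻ w in A, ENNReal.ofReal (f w ^ 2) ∧
          ENNReal.ofReal (c * (N : ℝ) ^ (3 * s / (2 - s) - η) * ∑ i, |f (z i)|) ≤
            ∫⁻ w in A, ENNReal.ofReal |f w| ∧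
          ENNReal.ofReal (c * (N : ℝ) ^ (3 * s / (2 - s) - η) * k) ≤ volume A) ∧
        -- the number of nodal domains modulo `Γ(N)`
        (k : ℝ) ≤ C * (N : ℝ) ^ (6 * (1 - s) / (2 - s) + η) := by
  obtain ⟨c, hc0, hc⟩ := Pool.Agent.H75.NA.many hs hs1 hη
  refine ⟨c, 6 / c, hc0, by positivity, fun N f hN hf k z hz hine => ⟨fun A hA hcov => ?_, ?_⟩⟩
  · obtain ⟨h1, h2, h3⟩ := hc N hN f hf.eig k z hz hine A hA hcov
    exact ⟨h3, h2, h1⟩
  · obtain ⟨F, hF, hFc, hFv⟩ := exists_F (N := N) (by omega)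
    have h1 := (hc N hN f hf.eig k z hz hine F hF (fun i w _ => hFc w)).1.trans hFv
    have hN0 : (0 : ℝ) < N := by
      have : (3 : ℝ) ≤ N := by exact_mod_cast hN
      linarith
    have hs2 : 2 - s ≠ 0 := by linarith
    rw [ENNReal.ofReal_le_ofReal_iff (by positivity)] at h1
    have h2 : (N : ℝ) ^ 3 = (N : ℝ) ^ (3 * s / (2 - s) - η) * (N : ℝ) ^ (6 * (1 - s) / (2 - s) + η) := by
      rw [← Real.rpow_add hN0, ← Real.rpow_natCast]
      congr 1
      field_simp
      push_cast
      ring
    have h3 : 0 < (N : ℝ) ^ (3 * s / (2 - s) - η) := by positivity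
    rw [h2] at h1
    have h4 : (N : ℝ) ^ (3 * s / (2 - s) - η) * (c * k) ≤
        (N : ℝ) ^ (3 * s / (2 - s) - η) * (6 * (N : ℝ) ^ (6 * (1 - s) / (2 - s) + η)) := by
      linarith
    have h5 := le_of_mul_le_mul_left h4 h3
    rw [div_mul_eq_mul_div, le_div_iff₀ hc0]
    linarith

end Pool.Agent.Results.MP_a812b2_nt.ArithmeticNodalBounds
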