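import Pool.Agent.H25.DH.Fin5

/-!
# MP_a812b2_nt: exceptional spectrum and irreducible representations of `SL(2,ℤ/N)`

The Maass cusp forms for `Γ(N)` with a given eigenvalue are a representation of `SL(2,ℤ/N)`. We bound
the multiplicity of EVERY irreducible representation in the part of the spectrum with eigenvalue at
most `1/4`, with the exponent of the density hypothesis (up to `η`) and without loss `d ^ ε`: for
every `c < 2` there is `C > 0` such that for every irreducible unitary representation `ρ` of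
`SL(2,ℤ)` whose kernel is a congruence subgroup, of dimension `d ≥ 2`, linearly independent vector
valued Maass cusp forms of type `ρ`, with eigenvalues `1/4 - ν_i ^ 2`, `ν_i ≥ 0`, satisfy
`∑ d ^ (c ν_i) ≤ C d / (log d) ^ 3`. In particular, there are at most `C d / (log d) ^ 3` of them,
and at most `C d ^ (1 - c α) / (log d) ^ 3` with `ν_i ≥ α`, for every `α ≥ 0`.

The number of all eigenvalues in a bounded interval is about a constant times `d`. The level does not
occur in the bound. The proof uses a pretrace inequality for vector valued functions in which the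
character of `ρ` appears, with its signs, and an estimate for the average of `|χ|` over the integral
matrices of size `X`, of the quality `(N X) ^ ε (N X ^ 3 + X ^ 4) ^ (1/2)`, which comes from the
Cauchy-Schwarz inequality over the conjugacy classes of `SL(2,ℤ/N)` and `∑ |χ| ^ 2 = |SL(2,ℤ/N)|`.
-/

set_option autoImplicit false

open MeasureTheory
open scoped MatrixGroups UpperHalfPlane

namespace Pool.Agent.Results.MP_a812b2_nt.IrreducibleDensity

/-- a unitary matrix representation `ρ` of `SL(2,ℤ)` is irreducible: the only invariant subspaces of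
`ℂ ^ d` are `0` and `ℂ ^ d` -/
def IsIrred {d : ℕ} (ρ : SL(2, ℤ) →* Matrix.unitaryGroup (Fin d) ℂ) : Prop :=
  ∀ W : Submodule ℂ (Fin d → ℂ),
    (∀ γ : SL(2, ℤ), ∀ w ∈ W, Matrix.mulVec (ρ γ : Matrix (Fin d) (Fin d) ℂ) w ∈ W) →
      W = ⊥ ∨ W = ⊤

/-- `f` is a vector valued Maass cusp form of type `ρ` (and weight `0`), that is a smooth square
integrable cuspidal function with `f (γ z) = ρ(γ) f(z)` for all `γ` in `SL(2,ℤ)`, the components of
which are eigenfunctions of the Laplacian `-y² (∂²/∂x² + ∂²/∂y²)` with eigenvalue `1/4 - ν²`. -/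
structure IsVectorCuspForm {d : ℕ} (ρ : SL(2, ℤ) →* Matrix.unitaryGroup (Fin d) ℂ) (ν : ℝ)
    (f : ℂ → Fin d → ℂ) : Prop where
  /-- the components are smooth on the upper half plane -/
  smooth : ∀ a, ContDiffOn ℝ (⊤ : ℕ∞) (fun w => f w a) {w : ℂ | 0 < w.im}
  /-- `f (γ z) = ρ(γ) f(z)` -/
  equivariant : ∀ (γ : SL(2, ℤ)) (z : ℍ),
    f ((γ • z : ℍ) : ℂ) = Matrix.mulVec (ρ γ : Matrix (Fin d) (Fin d) ℂ) (f (z : ℂ))
  /-- `-y² (f_xx + f_yy) = (1/4 - ν²) f` -/
  laplace : ∀ (a : Fin d) (z : ℍ),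
    -((z.im : ℂ) ^ 2) *
      (deriv (fun s : ℝ => deriv (fun t : ℝ => f ((t : ℂ) + (z.im : ℂ) * Complex.I) a) s) z.re
        + deriv (fun s : ℝ => deriv (fun t : ℝ => f ((z.re : ℂ) + (t : ℂ) * Complex.I) a) s) z.im)
      = ((1 / 4 - ν ^ 2 : ℝ) : ℂ) * f (z : ℂ) a
  /-- `f` is square integrable on the standard fundamental domain of `SL(2,ℤ)` for `dx dy / y²` -/
  sqIntegrable : ∀ a, IntegrableOn (fun w : ℂ => ‖f w a‖ ^ 2 / w.im ^ 2)
    ((fun z : ℍ => (z : ℂ)) '' ModularGroup.fd)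
  /-- `f` is cuspidal: its integral over `[z, z + h]` vanishes if `ρ` is trivial on `z ↦ z + h` -/
  cuspidal : ∀ h : ℕ, 0 < h → ρ (ModularGroup.T ^ h) = 1 → ∀ (a : Fin d) (z : ℍ),
    ∫ x in (0 : ℝ)..h, f ((x +ᵥ z : ℍ) : ℂ) a = 0

/-- The log-free density theorem for irreducible congruence representations: for every `c < 2` there
is `C > 0` such that for every irreducible unitary representation `ρ` of `SL(2,ℤ)` with a
congruence subgroup as kernel, of dimension `d ≥ 2`, and all linearly independent vector valued Maass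
cusp forms `f i` of type `ρ`, with eigenvalues `1/4 - (ν i)²`, `0 ≤ ν i ≤ 1/2`, one has
`∑ i, d ^ (c ν i) ≤ C d / (log d) ^ 3`; and so there are at most `C d ^ (1 - c α) / (log d) ^ 3` of
them if all `ν i ≥ α`. -/
theorem result : ∀ c : ℝ, 0 < c → c < 2 → ∃ C : ℝ, 0 < C ∧
    ∀ (d : ℕ) (ρ : SL(2, ℤ) →* Matrix.unitaryGroup (Fin d) ℂ), 2 ≤ d →
    (∃ N : ℕ, 0 < N ∧ CongruenceSubgroup.Gamma N ≤ ρ.ker) → IsIrred ρ →
    ∀ (k : ℕ) (ν : Fin k → ℝ) (f : Fin k → ℂ → Fin d → ℂ),
      (∀ i, 0 ≤ ν i) → (∀ i, ν i ≤ 1 / 2) → (∀ i, IsVectorCuspForm ρ (ν i) (f i)) →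
      LinearIndependent ℂ (fun i => fun z : ℍ => f i z) →
      (∑ i, (d : ℝ) ^ (c * ν i) ≤ C * d / Real.log d ^ 3) ∧
      ∀ α : ℝ, (∀ i, α ≤ ν i) → (k : ℝ) ≤ C * (d : ℝ) ^ (1 - c * α) / Real.log d ^ 3 := by
  intro c hc0 hc2
  obtain ⟨C, hC, h⟩ := Pool.Agent.H25.DH.final5 (η := 2 - c) (by linarith)
  refine ⟨C, hC, fun d ρ hd hρ hirr k ν f hν hν' hf hli => ?_⟩
  have h1 := h d ρ hd hρ hirr k ν f hν hν'
    (fun i => ⟨(hf i).smooth, (hf i).equivariant, (hf i).laplace, (hf i).sqIntegrable,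
      (hf i).cuspidal⟩) hli
  have h1' : ∑ i, (d : ℝ) ^ (c * ν i) ≤ C * d / Real.log d ^ 3 := by
    refine le_trans (le_of_eq ?_) h1
    exact Finset.sum_congr rfl fun i _ => by congr 1; ring
  refine ⟨h1', fun α hα => ?_⟩
  have hn : (2 : ℝ) ≤ d := by exact_mod_cast hd
  have hn0 : (0 : ℝ) < d := by linarith
  have h2 : (k : ℝ) * (d : ℝ) ^ (c * α) ≤ ∑ i, (d : ℝ) ^ (c * ν i) := by
    have : (k : ℝ) * (d : ℝ) ^ (c * α) = ∑ _i : Fin k, (d : ℝ) ^ (c * α) := by simp
    rw [this]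
    exact Finset.sum_le_sum fun i _ =>
      Real.rpow_le_rpow_of_exponent_le (by linarith) (mul_le_mul_of_nonneg_left (hα i) hc0.le)
  have h3 := h2.trans h1'
  have h4 : (d : ℝ) = (d : ℝ) ^ (1 - c * α) * (d : ℝ) ^ (c * α) := by
    rw [← Real.rpow_add hn0]
    simp
  have h5 : C * (d : ℝ) / Real.log d ^ 3 =
      (C * (d : ℝ) ^ (1 - c * α) / Real.log d ^ 3) * (d : ℝ) ^ (c * α) := by
    calc C * (d : ℝ) / Real.log d ^ 3
        = C * ((d : ℝ) ^ (1 - c * α) * (d : ℝ) ^ (c * α)) / Real.log d ^ 3 := by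
          rw [← h4]
      _ = _ := by ring
  rw [h5] at h3
  exact le_of_mul_le_mul_right h3 (Real.rpow_pos_of_pos hn0 _)

end Pool.Agent.Results.MP_a812b2_nt.IrreducibleDensity
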