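import Pool.Agent.H25.DH.Fin6

/-!
# MP_a812b2_nt: the log-free density hypothesis for the exceptional spectrum of all congruence groups

For every `c < 2` there is `C > 0` such that for EVERY congruence subgroup `Γ` of `SL(2,ℤ)`, of
index `n ≥ 2`, the eigenvalues `1/4 - ν_i ^ 2 ≤ 1/4` of the Laplacian on the Maass cusp forms of `Γ`
(all of them, with multiplicity; the eigenvalue `1/4` is included) satisfy
`∑ n ^ (c ν_i) ≤ C n / (log n) ^ 3`. In particular there are at most `C n / (log n) ^ 3` of them, and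
at most `C n ^ (1 - c α) / (log n) ^ 3` with `ν_i ≥ α`, for every `α ≥ 0`.

The exponent is that of the density hypothesis (up to `2 - c`), and there is no loss `n ^ ε`, so that
the statement has content for `ν_i` of the size of `1 / log n` and for `ν_i = 0`; there is no
hypothesis on the congruence group: not on its level, not on normality, nor on the shape of the group.

The arithmetic input is a bound for the average number of fixed points on `SL(2,ℤ) ⧸ Γ` of the
integral matrices of size `X ≤ n ^ (1 - θ)`, with a power saving `n ^ (θ / 16)` over the trivial one.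
If the level `N` is less than `n ^ (1 - θ / 4)` it comes from the few scalar elements of `Γ` modulo
divisors of `N`. If the level is larger, the permutation representation on the cosets has few
irreducible constituents, and each has a character which is small on average (Cauchy-Schwarz over the
conjugacy classes of `SL(2,ℤ/N)`).
-/

set_option autoImplicit false

open MeasureTheory
open scoped MatrixGroups UpperHalfPlane

namespace Pool.Agent.Results.MP_a812b2_nt.LogFreeDensity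

/-- `f` is a Maass cusp form on `Γ \ ℍ`, that is a smooth square integrable cuspidal eigenfunction of
the Laplacian `-y² (∂²/∂x² + ∂²/∂y²)`, with eigenvalue `1/4 - ν²` (the conventions are those of the
frozen statement). -/
structure IsMaassCuspForm (Γ : Subgroup SL(2, ℤ)) (ν : ℝ) (f : ℂ → ℂ) : Prop where
  /-- `f` is smooth on the upper half plane -/
  smooth : ContDiffOn ℝ (⊤ : ℕ∞) f {w : ℂ | 0 < w.im}
  /-- `f` is `Γ`-invariant -/
  invariant : ∀ γ ∈ Γ, ∀ z : ℍ, f ((γ • z : ℍ) : ℂ) = f (z : ℂ)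
  /-- `-y² (f_xx + f_yy) = (1/4 - ν²) f` -/
  laplace : ∀ z : ℍ,
    -((z.im : ℂ) ^ 2) *
      (deriv (fun s : ℝ => deriv (fun t : ℝ => f ((t : ℂ) + (z.im : ℂ) * Complex.I)) s) z.re
        + deriv (fun s : ℝ => deriv (fun t : ℝ => f ((z.re : ℂ) + (t : ℂ) * Complex.I)) s) z.im)
      = ((1 / 4 - ν ^ 2 : ℝ) : ℂ) * f (z : ℂ)
  /-- `f` is square integrable for `dx dy / y²` on every translate of the fundamental domain -/
  sqIntegrable : ∀ γ : SL(2, ℤ), IntegrableOn (fun w : ℂ => ‖f w‖ ^ 2 / w.im ^ 2)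
    ((fun z : ℍ => ((γ • z : ℍ) : ℂ)) '' ModularGroup.fd)
  /-- `f` is cuspidal: its integral over every closed horocycle vanishes. (The cusp is `γ ∞`, and
  `γ T ^ h γ⁻¹`, with `T = (1, 1; 0, 1)`, is in its stabiliser in `Γ`.) -/
  cuspidal : ∀ (γ : SL(2, ℤ)) (h : ℕ), 0 < h → γ * ModularGroup.T ^ h * γ⁻¹ ∈ Γ → ∀ z : ℍ,
    ∫ x in (0 : ℝ)..h, f ((γ • (x +ᵥ z) : ℍ) : ℂ) = 0

/-- The log-free density theorem: for every `c < 2` there is `C > 0` such that for every
congruence subgroup `Γ` of index `n ≥ 2` and all linearly independent Maass cusp forms `f i` on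
`Γ \ ℍ`, with eigenvalues `1/4 - (ν i)²`, `0 ≤ ν i ≤ 1/2`, one has
`∑ i, n ^ (c ν i) ≤ C n / (log n) ^ 3`; and so there are at most `C n ^ (1 - c α) / (log n) ^ 3` of
them if all `ν i ≥ α`. -/
theorem result : ∀ c : ℝ, 0 < c → c < 2 → ∃ C : ℝ, 0 < C ∧ ∀ Γ : Subgroup SL(2, ℤ),
    (∃ N : ℕ, 0 < N ∧ CongruenceSubgroup.Gamma N ≤ Γ) → 2 ≤ Γ.index →
    ∀ (k : ℕ) (ν : Fin k → ℝ) (f : Fin k → ℂ → ℂ),
      (∀ i, 0 ≤ ν i) → (∀ i, ν i ≤ 1 / 2) → (∀ i, IsMaassCuspForm Γ (ν i) (f i)) →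
      LinearIndependent ℂ (fun i => fun z : ℍ => f i z) →
      (∑ i, (Γ.index : ℝ) ^ (c * ν i) ≤ C * Γ.index / Real.log Γ.index ^ 3) ∧
      ∀ α : ℝ, (∀ i, α ≤ ν i) →
        (k : ℝ) ≤ C * (Γ.index : ℝ) ^ (1 - c * α) / Real.log Γ.index ^ 3 := by
  intro c hc0 hc2
  obtain ⟨C, hC, h⟩ := Pool.Agent.H25.DH.final6 (η := 2 - c) (by linarith)
  refine ⟨C, hC, fun Γ hΓ hn2 k ν f hν hν' hf hli => ?_⟩
  have h1 := h Γ hΓ hn2 k ν f hν hν'
    (fun i => ⟨(hf i).smooth, (hf i).invariant, (hf i).laplace, (hf i).sqIntegrable⟩)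
    (fun i => (hf i).cuspidal) hli
  have h1' : ∑ i, (Γ.index : ℝ) ^ (c * ν i) ≤ C * Γ.index / Real.log Γ.index ^ 3 := by
    refine le_trans (le_of_eq ?_) h1
    exact Finset.sum_congr rfl fun i _ => by congr 1; ring
  refine ⟨h1', fun α hα => ?_⟩
  have hn : (2 : ℝ) ≤ Γ.index := by exact_mod_cast hn2
  have hn0 : (0 : ℝ) < Γ.index := by linarith
  have h2 : (k : ℝ) * (Γ.index : ℝ) ^ (c * α) ≤ ∑ i, (Γ.index : ℝ) ^ (c * ν i) := by
    have : (k : ℝ) * (Γ.index : ℝ) ^ (c * α) = ∑ _i : Fin k, (Γ.index : ℝ) ^ (c * α) := by simp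
    rw [this]
    exact Finset.sum_le_sum fun i _ =>
      Real.rpow_le_rpow_of_exponent_le (by linarith) (mul_le_mul_of_nonneg_left (hα i) hc0.le)
  have h3 := h2.trans h1'
  have h4 : (Γ.index : ℝ) = (Γ.index : ℝ) ^ (1 - c * α) * (Γ.index : ℝ) ^ (c * α) := by
    rw [← Real.rpow_add hn0]
    simp
  have h5 : C * (Γ.index : ℝ) / Real.log Γ.index ^ 3 =
      (C * (Γ.index : ℝ) ^ (1 - c * α) / Real.log Γ.index ^ 3) * (Γ.index : ℝ) ^ (c * α) := by
    calc C * (Γ.index : ℝ) / Real.log Γ.index ^ 3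
        = C * ((Γ.index : ℝ) ^ (1 - c * α) * (Γ.index : ℝ) ^ (c * α)) /
            Real.log Γ.index ^ 3 := by rw [← h4]
      _ = _ := by ring
  rw [h5] at h3
  exact le_of_mul_le_mul_right h3 (Real.rpow_pos_of_pos hn0 _)

end Pool.Agent.Results.MP_a812b2_nt.LogFreeDensity
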