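import Pool.Agent.H75.PD.Main2

/-!
# MP_a812b2_nt: a pointwise and log-free density theorem for the principal congruence groups

Let `u_1, ..., u_k` be orthonormal eigenfunctions of the Laplacian on `Γ(N) \ ℍ` with eigenvalues
`1/4 - ν_i² ≤ 1/4`. For every `c < 6` and `ε > 0` there is a constant `C` with

`∑ N^(c ν_i) |u_i(z)|² ≤ C (1 + N^(ε-1) T) / (log N)³`

for all `N ≥ 3`, all such families and ALL points `z`, if no point of the orbit `SL(2,ℤ) z` has an
imaginary part larger than `T`. (So the right side is `≪ (log N)⁻³` as long as `z` is not higher in a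
cusp than `N^(1-ε)`; the cusps of `Γ(N)` have width `N`.)

Integration over `Γ(N) \ ℍ` gives back bounds for the number of exceptional eigenvalues; the theorem
says more: an exceptional form cannot concentrate anywhere. At most `C N^(-c α) |E| / (log N)³`
orthonormal forms with `ν_i ≥ α` have half of their mass in a set of area `|E|` outside of the high
parts of the cusps, and every `u` with `‖u‖ = 1` in the span of the eigenfunctions with `ν ≥ α` has
`|u(z)|² ≤ C N^(-c α) / (log N)³` there (for the constants `|u|² ≍ N⁻³`, which is `c α = 3`).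

The proof uses the pretrace inequality with the kernel of the library module and, at every point of
the fundamental domain of `SL(2,ℤ)` and uniformly in its height `y`, the bound
`C Y^(1+θ) (Y / N³ + y / N)` for the number of elements `≠ 1` of `Γ(N)` which move the point by a
distance at most `2 log Y`.
-/

set_option autoImplicit false

open MeasureTheory CongruenceSubgroup
open scoped MatrixGroups UpperHalfPlane ComplexConjugate

namespace Pool.Agent.Results.MP_a812b2_nt.PointwiseDensity

open Pool.Agent.N799.DT (IsEigen)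
open Pool.Agent.H369R2 (nu)

/-- The pointwise density theorem. `IsEigen Γ ν f`: `f` is a smooth `Γ`-invariant square integrable
eigenfunction, `-y² (f_xx + f_yy) = (1/4 - ν²) f`. `nu N`: the hyperbolic area on the translates of
the fundamental domain of `SL(2,ℤ)` under representatives of `SL(2,ℤ) / Γ(N)`, which is twice the
area on `Γ(N) \ ℍ`. -/
theorem result (c ε : ℝ) (hc0 : 0 < c) (hc : c < 6) (hε : 0 < ε) : ∃ C : ℝ, 0 < C ∧
    ∀ (N : ℕ), 3 ≤ N → ∀ (k : ℕ) (ν : Fin k → ℝ) (u : Fin k → ℂ → ℂ),
    (∀ i, 0 ≤ ν i) → (∀ i, ν i ≤ 1 / 2) → (∀ i, IsEigen (Gamma N) (ν i) (u i)) →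
    (∀ i j, ∫ z : ℍ, conj (u i z) * u j z ∂(nu N) = if i = j then 1 else 0) →
    ∀ (z : ℍ) (T : ℝ), (∀ σ : SL(2, ℤ), (σ • z).im ≤ T) →
      ∑ i, (N : ℝ) ^ (c * ν i) * ‖u i z‖ ^ 2 ≤
        C * (1 + (N : ℝ) ^ (ε - 1) * T) / Real.log N ^ 3 :=
  Pool.Agent.H75.PD.pointwise2 hc0 hc hε

end Pool.Agent.Results.MP_a812b2_nt.PointwiseDensity
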